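import Pool.Agent.BSE.Stmts

/-!
# BSE, row MO1: fourth moments of a column of a random unitary matrix
-/

open MeasureTheory Matrix Finset
open scoped ComplexConjugate

namespace Pool.Agent.BSE.H30

open Pool.Agent.Helper64_FR

variable {n : ℕ}

/-- a sign -/
def sg (a : Bool) : ℂ := if a then 1 else -1

/-- the product of three signs -/
def sg3 (t : Bool × Bool × Bool) : ℂ := sg t.1 * sg t.2.1 * sg t.2.2

/-- the signed sum -/
def us (t : Bool × Bool × Bool) (y : Fin 4 → ℂ) : ℂ :=
  sg t.1 * y 0 + sg t.2.1 * y 1 + sg t.2.2 * y 2 + y 3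

theorem conj_sg (a : Bool) : conj (sg a) = sg a := by
  cases a <;> simp [sg]

theorem conj_sg3 (t : Bool × Bool × Bool) : conj (sg3 t) = sg3 t := by
  simp [sg3, conj_sg]

theorem conj_us (t : Bool × Bool × Bool) (y : Fin 4 → ℂ) :
    conj (us t y) = us t (fun s => conj (y s)) := by
  simp [us, conj_sg]

theorem pol (y : Fin 4 → ℂ) :
    ∑ t : Bool × Bool × Bool, sg3 t * us t y ^ 4 = 192 * (y 0 * y 1 * y 2 * y 3) := by
  simp only [Fintype.sum_prod_type, Fintype.sum_bool, sg3, us, sg, if_true, Bool.false_eq_true,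
    if_false]
  ring

/-- the permanent, from the signed sums -/
theorem pol2 (D : Fin 4 → Fin 4 → ℂ) :
    ∑ t : Bool × Bool × Bool, sg3 t * (us t (D 0) * us t (D 1) * us t (D 2) * us t (D 3)) =
      8 * (D 0 0 * (D 1 1 * (D 2 2 * D 3 3 + D 2 3 * D 3 2) +
            D 1 2 * (D 2 1 * D 3 3 + D 2 3 * D 3 1) + D 1 3 * (D 2 1 * D 3 2 + D 2 2 * D 3 1)) +
          D 0 1 * (D 1 0 * (D 2 2 * D 3 3 + D 2 3 * D 3 2) +
            D 1 2 * (D 2 0 * D 3 3 + D 2 3 * D 3 0) + D 1 3 * (D 2 0 * D 3 2 + D 2 2 * D 3 0)) +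
          D 0 2 * (D 1 0 * (D 2 1 * D 3 3 + D 2 3 * D 3 1) +
            D 1 1 * (D 2 0 * D 3 3 + D 2 3 * D 3 0) + D 1 3 * (D 2 0 * D 3 1 + D 2 1 * D 3 0)) +
          D 0 3 * (D 1 0 * (D 2 1 * D 3 2 + D 2 2 * D 3 1) +
            D 1 1 * (D 2 0 * D 3 2 + D 2 2 * D 3 0) + D 1 2 * (D 2 0 * D 3 1 + D 2 1 * D 3 0))) := by
  simp only [Fintype.sum_prod_type, Fintype.sum_bool, sg3, us, sg, if_true, Bool.false_eq_true,
    if_false]
  ring

/-- indicator of an equality -/
def dl (x : Fin 4 → Fin n) (s t : Fin 4) : ℂ := if x s = x t then 1 else 0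

theorem per_eq (i j k l : Fin n) (a b c d e f : ℂ)
    (ha : a = if i = j then 1 else 0) (hb : b = if i = k then 1 else 0)
    (hc : c = if i = l then 1 else 0) (hd : d = if j = k then 1 else 0)
    (he : e = if j = l then 1 else 0) (hf : f = if k = l then 1 else 0) :
    1 * (1 * (1 * 1 + f * f) + d * (d * 1 + f * e) + e * (d * f + 1 * e)) +
      a * (a * (1 * 1 + f * f) + d * (b * 1 + f * c) + e * (b * f + 1 * c)) +
      b * (a * (d * 1 + f * e) + 1 * (b * 1 + f * c) + e * (b * e + d * c)) +
      c * (a * (d * f + 1 * e) + 1 * (b * f + 1 * c) + d * (b * e + d * c)) =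
      ((per i j k l : ℝ) : ℂ) := by
  subst ha hb hc hd he hf
  unfold per
  rcases eq_or_ne i j with h1 | h1
  · subst h1
    rcases eq_or_ne i k with h2 | h2
    · subst h2
      rcases eq_or_ne i l with h3 | h3
      · subst h3
        norm_num
      · simp only [h3, if_false, if_true, and_false, and_true]
        norm_num
    · rcases eq_or_ne i l with h3 | h3
      · subst h3
        simp only [h2, h2.symm, if_false, if_true, and_false, and_true, false_and]
        norm_num
      · rcases eq_or_ne k l with h4 | h4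
        · subst h4
          simp only [h2, if_false, if_true, and_false, and_true, false_and]
          norm_num
        · simp only [h2, h3, h4, if_false, if_true, and_false, and_true, false_and]
          norm_num
  · rcases eq_or_ne i k with h2 | h2
    · subst h2
      rcases eq_or_ne i l with h3 | h3
      · subst h3
        simp only [h1, h1.symm, if_false, if_true, and_false, and_true, false_and]
        norm_num
      · rcases eq_or_ne j l with h4 | h4
        · subst h4
          simp only [h1, h1.symm, if_false, if_true, and_false, and_true, false_and]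
          norm_num
        · simp only [h1, h1.symm, h3, h4, if_false, if_true, and_false, and_true, false_and]
          norm_num
    · rcases eq_or_ne i l with h3 | h3
      · subst h3
        rcases eq_or_ne j k with h4 | h4
        · subst h4
          simp only [h1, h1.symm, if_false, if_true, and_false, and_true, false_and]
          norm_num
        · simp only [h1, h1.symm, h2, h2.symm, h4, if_false, if_true, and_false, and_true,
            false_and]
          norm_num
      · rcases eq_or_ne j k with h4 | h4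
        · subst h4
          rcases eq_or_ne j l with h5 | h5
          · subst h5
            simp only [h1, if_false, if_true, and_false, and_true, false_and]
            norm_num
          · simp only [h1, h3, h5, if_false, if_true, and_false, and_true, false_and]
            norm_num
        · rcases eq_or_ne j l with h5 | h5
          · subst h5
            simp only [h1, h2, h4, h4.symm, if_false, if_true, and_false, and_true, false_and]
            norm_num
          · rcases eq_or_ne k l with h6 | h6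
            · subst h6
              simp only [h1, h2, h4, if_false, if_true, and_false, and_true, false_and]
              norm_num
            · simp only [h1, h2, h3, h4, h5, h6, if_false, and_false]
              norm_num

theorem pol3 (x : Fin 4 → Fin n) :
    ∑ t : Bool × Bool × Bool, sg3 t *
      (us t (dl x 0) * us t (dl x 1) * us t (dl x 2) * us t (dl x 3)) =
      8 * ((per (x 0) (x 1) (x 2) (x 3) : ℝ) : ℂ) := by
  rw [pol2, ← per_eq (x 0) (x 1) (x 2) (x 3) _ _ _ _ _ _ rfl rfl rfl rfl rfl rfl]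
  have hs : ∀ s t : Fin 4, dl x s t = dl x t s := by
    intro s t
    unfold dl
    by_cases h : x s = x t
    · rw [if_pos h, if_pos h.symm]
    · rw [if_neg h, if_neg (Ne.symm h)]
  have h1 : ∀ s : Fin 4, dl x s s = 1 := fun s => if_pos rfl
  rw [h1, h1, h1, h1, hs 1 0, hs 2 0, hs 2 1, hs 3 0, hs 3 1, hs 3 2]
  rfl

/-- the integrand -/
def zz (b : Fin n) (B : Finset (Fin n)) (x : Fin 4 → Fin n) (A : UB B) (s : Fin 4) : ℂ :=
  ((A : UU n) : Matrix (Fin n) (Fin n) ℂ) b (x s)

/-- the signed sum of basis vectors -/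
def uv (x : Fin 4 → Fin n) (t : Bool × Bool × Bool) : Fin n → ℂ :=
  fun m => us t fun s => if m = x s then 1 else 0

theorem mv_uv (b : Fin n) (B : Finset (Fin n)) (x : Fin 4 → Fin n) (A : UB B)
    (t : Bool × Bool × Bool) :
    (((A : UU n) : Matrix (Fin n) (Fin n) ℂ) *ᵥ uv x t) b = us t (zz b B x A) := by
  simp only [Matrix.mulVec, dotProduct, uv, us, mul_add, Finset.sum_add_distrib, zz,
    mul_ite, mul_one, mul_zero, Finset.sum_ite_eq', Finset.mem_univ, if_true]
  ring

theorem sum_uv (B : Finset (Fin n)) (x : Fin 4 → Fin n) (hx : ∀ s, x s ∈ B)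
    (t t' : Bool × Bool × Bool) :
    ∑ m ∈ B, conj (uv x t' m) * uv x t m = us t fun s => us t' (dl x s) := by
  have h0 : ∀ s, ∑ m ∈ B, conj (uv x t' m) * (if m = x s then (1 : ℂ) else 0) =
      us t' (dl x s) := by
    intro s
    simp only [mul_ite, mul_one, mul_zero, Finset.sum_ite_eq', hx s, if_true]
    unfold uv
    rw [conj_us]
    congr 1
    funext r
    unfold dl
    by_cases h : x s = x r
    · rw [if_pos h, map_one]
    · rw [if_neg h, map_zero]
  have h1 : ∀ m, conj (uv x t' m) * uv x t m =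
      sg t.1 * (conj (uv x t' m) * (if m = x 0 then (1 : ℂ) else 0)) +
      sg t.2.1 * (conj (uv x t' m) * (if m = x 1 then (1 : ℂ) else 0)) +
      sg t.2.2 * (conj (uv x t' m) * (if m = x 2 then (1 : ℂ) else 0)) +
      conj (uv x t' m) * (if m = x 3 then (1 : ℂ) else 0) := by
    intro m
    conv_lhs => rw [show uv x t m = us t fun s => if m = x s then 1 else 0 from rfl]
    unfold us
    ring
  simp_rw [h1, Finset.sum_add_distrib, ← Finset.mul_sum, h0]
  rfl

theorem prod_eq (b : Fin n) (B : Finset (Fin n)) (x : Fin 4 → Fin n) (A : UB B) :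
    36864 * (((‖zz b B x A 0‖ ^ 2 * ‖zz b B x A 1‖ ^ 2 * ‖zz b B x A 2‖ ^ 2 *
      ‖zz b B x A 3‖ ^ 2 : ℝ)) : ℂ) =
    ∑ t : Bool × Bool × Bool, ∑ t' : Bool × Bool × Bool, sg3 t * sg3 t' *
      (conj (us t' (zz b B x A)) * us t (zz b B x A)) ^ 4 := by
  have h1 := pol (zz b B x A)
  have h2 : ∑ t : Bool × Bool × Bool, sg3 t * conj (us t (zz b B x A)) ^ 4 =
      192 * (conj (zz b B x A 0) * conj (zz b B x A 1) * conj (zz b B x A 2) *
        conj (zz b B x A 3)) := by
    rw [← pol fun s => conj (zz b B x A s)]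
    refine Finset.sum_congr rfl fun t _ => ?_
    rw [conj_us]
  have h3 : ∑ t : Bool × Bool × Bool, ∑ t' : Bool × Bool × Bool, sg3 t * sg3 t' *
      (conj (us t' (zz b B x A)) * us t (zz b B x A)) ^ 4 =
      (∑ t : Bool × Bool × Bool, sg3 t * us t (zz b B x A) ^ 4) *
      ∑ t' : Bool × Bool × Bool, sg3 t' * conj (us t' (zz b B x A)) ^ 4 := by
    rw [Finset.sum_mul]
    refine Finset.sum_congr rfl fun t _ => ?_
    rw [Finset.mul_sum]
    refine Finset.sum_congr rfl fun t' _ => ?_
    ring
  rw [h3, h1, h2]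
  push_cast
  rw [← Complex.conj_mul', ← Complex.conj_mul', ← Complex.conj_mul', ← Complex.conj_mul']
  ring

theorem cont_zz (b : Fin n) (B : Finset (Fin n)) (x : Fin 4 → Fin n) (s : Fin 4) :
    Continuous fun A : UB B => zz b B x A s := by
  have h1 : Continuous fun A : UU n => (A : Matrix (Fin n) (Fin n) ℂ) b (x s) :=
    (continuous_apply_apply b (x s)).comp continuous_subtype_val
  exact h1.comp continuous_subtype_val

theorem cont_us (b : Fin n) (B : Finset (Fin n)) (x : Fin 4 → Fin n) (t : Bool × Bool × Bool) :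
    Continuous fun A : UB B => us t (zz b B x A) := by
  unfold us
  exact (((continuous_const.mul (cont_zz b B x 0)).add (continuous_const.mul
    (cont_zz b B x 1))).add (continuous_const.mul (cont_zz b B x 2))).add (cont_zz b B x 3)

theorem mo1 (sc1 : SC1Stmt) (inv : INVStmt) : MO1Stmt := by
  intro n B b hb
  have := (inv n B).1
  set c : Fin n → ℝ := fun i => if i = b then 1 else 0 with hc
  set Kr : ℝ := ∫ A : UB B,
    (∑ j ∈ B, ‖((A : UU n) : Matrix (Fin n) (Fin n) ℂ) j b‖ ^ 2 * c j) ^ 4 ∂(haarB B) with hKr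
  have hK : ∫ A : UB B,
      ((∑ j ∈ B, ‖((A : UU n) : Matrix (Fin n) (Fin n) ℂ) j b‖ ^ 2 * c j : ℝ) : ℂ) ^ 4
      ∂(haarB B) = (Kr : ℂ) := by
    rw [hKr, ← integral_complex_ofReal]
    refine integral_congr_ae (Filter.Eventually.of_forall fun A => ?_)
    push_cast
    rfl
  refine ⟨Kr / 24, ?_⟩
  intro i hi j hj k hk l hl
  set x : Fin 4 → Fin n := ![i, j, k, l] with hx
  have hxB : ∀ s, x s ∈ B := by
    intro s
    fin_cases s <;> simpa [hx]
  -- inversion
  have hinv : ∫ A : UB B, ‖((A : UU n) : Matrix (Fin n) (Fin n) ℂ) i b‖ ^ 2 *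
      ‖((A : UU n) : Matrix (Fin n) (Fin n) ℂ) j b‖ ^ 2 *
      ‖((A : UU n) : Matrix (Fin n) (Fin n) ℂ) k b‖ ^ 2 *
      ‖((A : UU n) : Matrix (Fin n) (Fin n) ℂ) l b‖ ^ 2 ∂(haarB B) =
      ∫ A : UB B, ‖zz b B x A 0‖ ^ 2 * ‖zz b B x A 1‖ ^ 2 * ‖zz b B x A 2‖ ^ 2 *
        ‖zz b B x A 3‖ ^ 2 ∂(haarB B) := by
    have h1 := ((inv n B).2 (fun A : UB B => (((‖zz b B x A 0‖ ^ 2 * ‖zz b B x A 1‖ ^ 2 *
      ‖zz b B x A 2‖ ^ 2 * ‖zz b B x A 3‖ ^ 2 : ℝ)) : ℂ))).2.2
    rw [integral_complex_ofReal, integral_complex_ofReal] at h1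
    have h2 := Complex.ofReal_injective h1
    rw [← h2]
    have h3 : ∀ (A : UB B) (s : Fin 4), ‖zz b B x A⁻¹ s‖ =
        ‖((A : UU n) : Matrix (Fin n) (Fin n) ℂ) (x s) b‖ := by
      intro A s
      have h4 : zz b B x A⁻¹ s = star (((A : UU n) : Matrix (Fin n) (Fin n) ℂ) (x s) b) := rfl
      rw [h4, norm_star]
    refine integral_congr_ae (Filter.Eventually.of_forall fun A => ?_)
    simp only [h3]
    rfl
  rw [hinv]
  -- the main computation
  have hG : ∀ t t' : Bool × Bool × Bool,
      ∫ A : UB B, (conj (us t' (zz b B x A)) * us t (zz b B x A)) ^ 4 ∂(haarB B) =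
      (us t fun s => us t' (dl x s)) ^ 4 * (Kr : ℂ) := by
    intro t t'
    have h1 := sc1 n B b hb 4 (uv x t) (uv x t') c
    rw [hK, sum_uv B x hxB] at h1
    rw [← h1]
    refine integral_congr_ae (Filter.Eventually.of_forall fun A => ?_)
    have h2 : ∑ i ∈ B, (c i : ℂ) *
        conj ((((A : UU n) : Matrix (Fin n) (Fin n) ℂ) *ᵥ uv x t') i) *
        (((A : UU n) : Matrix (Fin n) (Fin n) ℂ) *ᵥ uv x t) i =
        conj (us t' (zz b B x A)) * us t (zz b B x A) := by
      rw [Finset.sum_eq_single_of_mem b hb]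
      · rw [mv_uv, mv_uv, hc]
        simp
      · intro m _ hm
        rw [hc]
        simp [hm]
    show _ = (_ : ℂ) ^ 4
    rw [h2]
  have hint : ∀ t t' : Bool × Bool × Bool, Integrable (fun A : UB B => sg3 t * sg3 t' *
      (conj (us t' (zz b B x A)) * us t (zz b B x A)) ^ 4) (haarB B) := by
    intro t t'
    have hcn : Continuous fun A : UB B => sg3 t * sg3 t' *
      (conj (us t' (zz b B x A)) * us t (zz b B x A)) ^ 4 :=
      continuous_const.mul (((Complex.continuous_conj.comp (cont_us b B x t')).mul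
        (cont_us b B x t)).pow 4)
    exact hcn.integrable_of_hasCompactSupport (HasCompactSupport.of_compactSpace _)
  have hmain : 36864 * ((∫ A : UB B, ‖zz b B x A 0‖ ^ 2 * ‖zz b B x A 1‖ ^ 2 *
      ‖zz b B x A 2‖ ^ 2 * ‖zz b B x A 3‖ ^ 2 ∂(haarB B) : ℝ) : ℂ) =
      1536 * ((per i j k l : ℝ) : ℂ) * (Kr : ℂ) := by
    rw [← integral_complex_ofReal, ← integral_const_mul]
    simp_rw [prod_eq]
    rw [integral_finsetSum _ fun t _ => integrable_finsetSum _ fun t' _ => hint t t']
    simp_rw [integral_finsetSum _ fun t' _ => hint _ t', integral_const_mul, hG]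
    rw [Finset.sum_comm]
    have h5 : ∀ t' : Bool × Bool × Bool, ∑ t : Bool × Bool × Bool, sg3 t * sg3 t' *
        ((us t fun s => us t' (dl x s)) ^ 4 * (Kr : ℂ)) =
        192 * (Kr : ℂ) * (sg3 t' * (us t' (dl x 0) * us t' (dl x 1) * us t' (dl x 2) *
          us t' (dl x 3))) := by
      intro t'
      have h6 := pol fun s => us t' (dl x s)
      calc ∑ t : Bool × Bool × Bool, sg3 t * sg3 t' *
            ((us t fun s => us t' (dl x s)) ^ 4 * (Kr : ℂ)) =
          sg3 t' * (Kr : ℂ) * ∑ t : Bool × Bool × Bool, sg3 t *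
            (us t fun s => us t' (dl x s)) ^ 4 := by
            rw [Finset.mul_sum]
            refine Finset.sum_congr rfl fun t _ => ?_
            ring
        _ = _ := by
            rw [h6]
            ring
    simp_rw [h5]
    rw [← Finset.mul_sum, pol3]
    have h7 : per (x 0) (x 1) (x 2) (x 3) = per i j k l := rfl
    rw [h7]
    ring
  have hreal : 36864 * (∫ A : UB B, ‖zz b B x A 0‖ ^ 2 * ‖zz b B x A 1‖ ^ 2 *
      ‖zz b B x A 2‖ ^ 2 * ‖zz b B x A 3‖ ^ 2 ∂(haarB B)) = 1536 * per i j k l * Kr := by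
    exact_mod_cast hmain
  linarith

end Pool.Agent.BSE.H30
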